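import Mathlib

set_option autoImplicit false
open Finset Configuration

namespace Pool.Agent.Results.MP_aa9284_co.Lower

open Classical in
noncomputable def sStar (P L : Type) [Membership P L] [Fintype P] : ℕ :=
  sInf {M | ∃ w : P → ℕ, (∀ x, 0 < w x ∧ w x ≤ M) ∧
    Function.Injective fun l : L => ∑ x ∈ univ.filter (· ∈ l), w x}

variable {P L : Type} [Membership P L] [ProjectivePlane P L] [Fintype P] [Fintype L]

open Classical in
private theorem sq (v : P → ℝ) (h : ∑ x, v x = 0) :
    ∑ l : L, (∑ x ∈ univ.filter (· ∈ l), v x) ^ 2 = ProjectivePlane.order P L * ∑ x, v x ^ 2 := by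
  have A : ∀ x y : P, ∑ l : L, (if x ∈ l then v x else 0) * (if y ∈ l then v y else 0) =
      v x * v y + if x = y then ProjectivePlane.order P L * v x ^ 2 else 0 := by
    intro x y
    have e : ∀ l : L, (if x ∈ l then v x else 0) * (if y ∈ l then v y else 0) =
        if x ∈ l ∧ y ∈ l then v x * v y else 0 := fun l => by
      by_cases x ∈ l <;> by_cases y ∈ l <;> simp [*]
    simp only [e]
    rw [← sum_filter, sum_const, nsmul_eq_mul]
    by_cases k : x = y
    · subst k
      have := ProjectivePlane.lineCount_eq L x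
      rw [lineCount, Nat.card_eq_fintype_card, Fintype.card_subtype] at this
      simp only [and_self, if_true, this]
      push_cast
      ring
    · obtain ⟨l, h1, h2⟩ := HasLines.existsUnique_line P L x y k
      rw [if_neg k, show univ.filter (fun l : L => x ∈ l ∧ y ∈ l) = {l} by
        ext m; simpa using ⟨fun a => h2 m a, fun a => a ▸ h1⟩]
      simp
  simp only [sum_filter, pow_two, sum_mul_sum]
  rw [sum_comm]
  refine (sum_congr rfl fun x _ => sum_comm.trans (sum_congr rfl fun y _ => A x y)).trans ?_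
  simp [sum_add_distrib, ← mul_sum, h, pow_two]

open Classical in
private theorem main : ProjectivePlane.order P L ^ 3 ≤ 32 * sStar P L ^ 2 := by
  have pc : ∀ l : L, #(univ.filter fun x : P => x ∈ l) = ProjectivePlane.order P L + 1 := fun l => by
    have := ProjectivePlane.pointCount_eq P l
    rwa [pointCount, Nat.card_eq_fintype_card, Fintype.card_subtype] at this
  have q1 := ProjectivePlane.one_lt_order P L
  obtain ⟨w, w1, w2⟩ : sStar P L ∈ {M | ∃ w : P → ℕ, (∀ x, 0 < w x ∧ w x ≤ M) ∧
      Function.Injective fun l : L => ∑ x ∈ univ.filter (· ∈ l), w x} := by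
    refine Nat.sInf_mem ⟨2 ^ Fintype.card P, fun x => 2 ^ (Fintype.equivFin P x).1,
      fun x => ⟨by positivity, Nat.pow_le_pow_right (by norm_num) (Fin.is_le' ..)⟩, fun l m h => ?_⟩
    have j : Function.Injective fun x => (Fintype.equivFin P x).1 :=
      Fin.val_injective.comp (Equiv.injective _)
    simp only at h
    rw [← sum_image (f := fun i => 2 ^ i) j.injOn, ← sum_image (f := fun i => 2 ^ i) j.injOn] at h
    have e := image_injective j (geomSum_injective le_rfl h)
    obtain ⟨a, ha, b, hb, n⟩ := one_lt_card.1 (show 1 < #(univ.filter fun x : P => x ∈ l) by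
      rw [pc]; omega)
    exact (Nondegenerate.eq_or_eq (mem_filter.1 ha).2 (mem_filter.1 hb).2
      (mem_filter.1 (e ▸ ha)).2 (mem_filter.1 (e ▸ hb)).2).resolve_left n
  have cP := ProjectivePlane.card_points P L
  have cL := ProjectivePlane.card_lines P L
  generalize sStar P L = M at *
  set q := ProjectivePlane.order P L
  have q2 : (1 : ℝ) < q := Nat.one_lt_cast.2 q1
  have n0 : (0 : ℝ) < Fintype.card P := by rw [cP]; positivity
  set a : ℝ := (∑ x, (w x : ℝ)) / Fintype.card P with ha
  have a0 : 0 ≤ a := by positivity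
  have a1 : a ≤ M := by
    rw [ha, div_le_iff₀ n0, mul_comm, ← nsmul_eq_mul]
    exact sum_le_card_nsmul _ _ _ fun x _ => Nat.cast_le.2 (w1 x).2
  have S := sq (L := L) (fun x => w x - a) (by
    rw [sum_sub_distrib, sum_const, card_univ, nsmul_eq_mul, ha]; field_simp; ring)
  have U : ∑ x, ((w x : ℝ) - a) ^ 2 ≤ Fintype.card P * (M : ℝ) ^ 2 := by
    rw [← nsmul_eq_mul]
    refine sum_le_card_nsmul _ _ _ fun x _ => sq_le_sq' ?_ ?_
    · have : (0 : ℝ) ≤ w x := Nat.cast_nonneg _
      linarith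
    · have : (w x : ℝ) ≤ M := Nat.cast_le.2 (w1 x).2
      linarith
  set s : L → ℕ := fun l => ∑ x ∈ univ.filter (· ∈ l), w x
  have e : ∀ l : L, ∑ x ∈ univ.filter (· ∈ l), ((w x : ℝ) - a) = s l - (q + 1) * a := fun l => by
    rw [sum_sub_distrib, sum_const, pc, nsmul_eq_mul]
    simp [s]
  simp only [e] at S
  set c := ((q : ℝ) + 1) * a
  set R := (q : ℝ) ^ 2 / 4 with hR
  have B : (#(univ.filter fun l => ((s l : ℝ) - c) ^ 2 < R ^ 2) : ℝ) ≤ 2 * R + 1 := by
    have : #(univ.filter fun l => ((s l : ℝ) - c) ^ 2 < R ^ 2) ≤ #(Icc ⌈c - R⌉ ⌊c + R⌋) := by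
      refine card_le_card_of_injOn (fun l => (s l : ℤ)) (fun l hl => ?_)
        fun l _ m _ h => w2 (Nat.cast_injective h)
      have := abs_lt.1 (abs_lt_of_sq_lt_sq (mem_filter.1 hl).2 (by positivity))
      simp only [coe_Icc, Set.mem_Icc, Int.ceil_le, Int.le_floor, Int.cast_natCast]
      constructor <;> linarith
    refine (Nat.cast_le.2 this).trans ?_
    have h1 := Int.floor_le (c + R)
    have h2 := Int.le_ceil (c - R)
    have h3 : (0 : ℝ) ≤ R := by positivity
    rw [Int.card_Icc, ← Int.cast_natCast, Int.toNat_eq_max]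
    push_cast
    exact max_le (by linarith) (by linarith)
  have C := card_filter_add_card_filter_not (s := univ) fun l => ((s l : ℝ) - c) ^ 2 < R ^ 2
  have D : (#(univ.filter fun l => ¬ ((s l : ℝ) - c) ^ 2 < R ^ 2) : ℝ) * R ^ 2 ≤
      ∑ l, ((s l : ℝ) - c) ^ 2 := by
    rw [← nsmul_eq_mul]
    exact (card_nsmul_le_sum _ _ _ fun l hl => not_lt.1 (mem_filter.1 hl).2).trans
      (sum_le_sum_of_subset_of_nonneg (filter_subset _ _) fun _ _ _ => by positivity)
  rw [card_univ, cL] at C
  have C' : (#(univ.filter fun l => ((s l : ℝ) - c) ^ 2 < R ^ 2) : ℝ) +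
      #(univ.filter fun l => ¬ ((s l : ℝ) - c) ^ 2 < R ^ 2) = q ^ 2 + q + 1 := by exact_mod_cast C
  rw [cP] at U n0
  push_cast at U n0
  have F : ((q : ℝ) ^ 2 + q + 1) / 2 * R ^ 2 ≤ q * ((q ^ 2 + q + 1) * M ^ 2) :=
    ((mul_le_mul_of_nonneg_right (by linarith) (by positivity)).trans (D.trans_eq S)).trans
      (mul_le_mul_of_nonneg_left U (by positivity))
  have G : (q * ((q : ℝ) ^ 2 + q + 1)) * q ^ 3 ≤ (q * (q ^ 2 + q + 1)) * (32 * M ^ 2) := by
    rw [hR] at F; linarith
  exact_mod_cast le_of_mul_le_mul_left G (by positivity)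

theorem result :
    (∀ (P L : Type) [Membership P L] [ProjectivePlane P L] [Fintype P] [Fintype L],
      ProjectivePlane.order P L ^ 3 ≤ 32 * sStar P L ^ 2) ∧
    ¬ ∃ c : ℝ, ∀ (P L : Type) [Membership P L] [ProjectivePlane P L] [Fintype P] [Fintype L],
      (sStar P L : ℝ) ≤ c * ProjectivePlane.order P L := by
  refine ⟨fun P L _ _ _ _ => main, fun ⟨c, h⟩ => ?_⟩
  obtain ⟨N, hN⟩ := exists_nat_ge (32 * c ^ 2)
  obtain ⟨p, hp, pp⟩ := Nat.exists_infinite_primes (N ^ 2 + N + 2)
  have := Fact.mk pp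
  have : Finite (Projectivization (ZMod p) (Fin 3 → ZMod p)) := Quotient.finite _
  have := Fintype.ofFinite (Projectivization (ZMod p) (Fin 3 → ZMod p))
  have h1 := h (Projectivization (ZMod p) (Fin 3 → ZMod p)) (Projectivization (ZMod p) (Fin 3 → ZMod p))
  have h2 := main (P := Projectivization (ZMod p) (Fin 3 → ZMod p))
    (L := Projectivization (ZMod p) (Fin 3 → ZMod p))
  have h3 := ProjectivePlane.card_points (Projectivization (ZMod p) (Fin 3 → ZMod p))
    (Projectivization (ZMod p) (Fin 3 → ZMod p))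
  have h4 := Fintype.card_le_of_injective (fun a : ZMod p => Projectivization.mk (ZMod p) ![1, a, 0]
    (fun h => by simpa using congrFun h 0)) fun a b h => by
      obtain ⟨u, e⟩ := (Projectivization.mk_eq_mk_iff' _ _ _ _ _).1 h
      have e0 := congrFun e 0
      have e1 := congrFun e 1
      simp at e0 e1
      rw [← e1, e0, one_mul]
  rw [ZMod.card, h3] at h4
  generalize ProjectivePlane.order (Projectivization (ZMod p) (Fin 3 → ZMod p))
    (Projectivization (ZMod p) (Fin 3 → ZMod p)) = q at *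
  generalize sStar (Projectivization (ZMod p) (Fin 3 → ZMod p))
    (Projectivization (ZMod p) (Fin 3 → ZMod p)) = M at *
  have h5 : N < q := by
    by_contra k
    have := Nat.pow_le_pow_left (not_lt.1 k) 2
    omega
  have h6 : (N : ℝ) < q := Nat.cast_lt.2 h5
  have h7 : (q : ℝ) ^ 3 ≤ 32 * M ^ 2 := by exact_mod_cast h2
  have h8 := pow_le_pow_left₀ (Nat.cast_nonneg _) h1 2
  have h9 : (0 : ℝ) < (q : ℝ) ^ 2 := pow_pos (lt_of_le_of_lt (Nat.cast_nonneg N) h6) 2
  nlinarith

end Pool.Agent.Results.MP_aa9284_co.Lower
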